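import Pool.Agent.MP_057cde_lc.h75.Meagre

-- ======== part 0: formerly Pool.Agent.MP_057cde_lc.h75.Quot
section MrgPart0

/-!
Fibres of a category preserving Borel map (a Kuratowski-Ulam theorem).
-/

namespace Pool.Agent.MP_057cde_lc.H75

open Set Filter Topology

/-- even part -/
def ev (x : Cantor) : Cantor := fun n => x (2 * n)

/-- odd part -/
def od (x : Cantor) : Cantor := fun n => x (2 * n + 1)

@[fun_prop] lemma continuous_ev : Continuous ev := by unfold ev; fun_prop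

@[fun_prop] lemma continuous_od : Continuous od := by unfold od; fun_prop

lemma ev_join (a b : Cantor) : ev (join a b) = a := by
  funext n
  simp [ev, ← oplus_eq_join, oplus]

lemma od_join (a b : Cantor) : od (join a b) = b := by
  funext n
  have h1 : (2 * n + 1) % 2 = 1 := by omega
  have h2 : (2 * n + 1) / 2 = n := by omega
  simp [od, ← oplus_eq_join, oplus, h1, h2]

lemma join_ev_od (x : Cantor) : join (ev x) (od x) = x := by
  funext n
  rw [← oplus_eq_join]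
  unfold oplus ev od
  split_ifs with h <;> congr 1 <;> omega

/-- essential range of `g` on `q` -/
def Ess (F q : Set Cantor) (g : Cantor → Cantor) : Set Cantor :=
  {y | ∀ s, IsClopen s → y ∈ s → ¬ Mg F (q ∩ g ⁻¹' s)}

/-- the essential range has an interior point -/
def Thick (F q : Set Cantor) (f : Cantor → Cantor) : Prop :=
  ∃ s₀, IsClopen s₀ ∧ s₀.Nonempty ∧
    ∀ s, IsClopen s → s ⊆ s₀ → s.Nonempty → ¬ Mg F (q ∩ f ⁻¹' s)

/-- `f` is category preserving on `F ∩ t` -/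
def CP (F t : Set Cantor) (f : Cantor → Cantor) : Prop :=
  ∀ q, IsClopen q → q ⊆ t → (F ∩ q).Nonempty → Thick F q f

/-- the essential fibre of `g` over `y` -/
def Fib (F : Set Cantor) (g : Cantor → Cantor) (y : Cantor) : Set Cantor :=
  {x | x ∈ F ∧ ∀ q, IsClopen q → x ∈ q → y ∈ Ess F q g}

variable {F P H t q : Set Cantor} {f g : Cantor → Cantor} {y : Cantor}

lemma fib_closed (hF : IsClosed F) : IsClosed (Fib F g y) := by
  rw [← isOpen_compl_iff, isOpen_iff_mem_nhds]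
  intro x hx
  by_cases h : x ∈ F
  · have : ∃ q, IsClopen q ∧ x ∈ q ∧ y ∉ Ess F q g := by
      by_contra hc
      push Not at hc
      exact hx ⟨h, hc⟩
    obtain ⟨q, a1, a2, a3⟩ := this
    filter_upwards [a1.isOpen.mem_nhds a2] with z hz hz' using a3 (hz'.2 q a1 hz)
  · filter_upwards [hF.isOpen_compl.mem_nhds h] with z hz hz' using hz hz'.1

lemma fib_meet (hF : IsClosed F) (hq : IsClopen q) :
    (Fib F g y ∩ q).Nonempty ↔ y ∈ Ess F q g := by
  refine ⟨fun ⟨x, a, b⟩ => a.2 q hq b, fun h => ?_⟩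
  by_contra hc
  have : ∃ s, IsClopen s ∧ y ∈ s ∧ Mg F (q ∩ g ⁻¹' s) := by
    refine hq.isClosed.isCompact.induction_on
      (p := fun K => ∃ s, IsClopen s ∧ y ∈ s ∧ Mg F (K ∩ g ⁻¹' s)) ?_ ?_ ?_ ?_
    · exact ⟨univ, isClopen_univ, trivial, mg_empty fun _ _ a => a.1⟩
    · rintro K K' hK ⟨s, a1, a2, a3⟩
      exact ⟨s, a1, a2, a3.mono fun x _ b => ⟨hK b.1, b.2⟩⟩
    · rintro K K' ⟨s, a1, a2, a3⟩ ⟨s', b1, b2, b3⟩
      exact ⟨s ∩ s', a1.inter b1, ⟨a2, b2⟩, (a3.union b3).mono fun x _ c =>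
        c.1.imp (fun d => ⟨d, c.2.1⟩) fun d => ⟨d, c.2.2⟩⟩
    · intro x hx
      by_cases hxF : x ∈ F
      · have : ∃ q', IsClopen q' ∧ x ∈ q' ∧ y ∉ Ess F q' g := by
          by_contra hd
          push Not at hd
          exact hc ⟨x, ⟨hxF, hd⟩, hx⟩
        obtain ⟨q', a1, a2, a3⟩ := this
        simp only [Ess, mem_ofPred_eq, not_forall, not_not] at a3
        obtain ⟨s, b1, b2, b3⟩ := a3
        exact ⟨q', mem_nhdsWithin_of_mem_nhds (a1.isOpen.mem_nhds a2), s, b1, b2, b3⟩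
      · exact ⟨Fᶜ, mem_nhdsWithin_of_mem_nhds (hF.isOpen_compl.mem_nhds hxF), univ,
          isClopen_univ, trivial, mg_empty fun _ a b => b.1 a⟩
  obtain ⟨s, a1, a2, a3⟩ := this
  exact h s a1 a2 a3

lemma CP.mono {t' : Set Cantor} (h : CP F t f) (ht : t' ⊆ t) : CP F t' f :=
  fun q a b c => h q a (b.trans ht) c

lemma CP.congr (h : CP F t f) (he : Mg F (t \ {x | f x = g x})) : CP F t g := by
  intro q a b c
  obtain ⟨s₀, a1, a2, a3⟩ := h q a b c
  refine ⟨s₀, a1, a2, fun s b1 b2 b3 b4 => a3 s b1 b2 b3 ((b4.union he).mono fun x _ d => ?_)⟩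
  by_cases hx : f x = g x
  · exact Or.inl ⟨d.1, by rw [mem_preimage, ← hx]; exact d.2⟩
  · exact Or.inr ⟨b d.1, hx⟩

lemma Thick.sub_ess (h : Thick F q g) {a : Set Cantor} (ha : IsClopen a)
    (hm : Mg F (q \ g ⁻¹' a)) :
    ∃ a', IsClopen a' ∧ a' ⊆ a ∧ a'.Nonempty ∧ a' ⊆ Ess F q g := by
  obtain ⟨s₀, a1, a2, a3⟩ := h
  have h1 : s₀ ⊆ Ess F q g := fun y hy s b1 b2 b3 =>
    a3 (s ∩ s₀) (b1.inter a1) inter_subset_right ⟨y, b2, hy⟩
      (b3.mono fun x _ c => ⟨c.1, c.2.1⟩)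
  refine ⟨s₀, a1, fun y hy => ?_, a2, h1⟩
  by_contra hc
  exact h1 hy aᶜ ha.compl hc hm

lemma mg_univ_local {Z : Set Cantor} (h : ∀ a, IsClopen a → a.Nonempty →
    ∃ a', IsClopen a' ∧ a' ⊆ a ∧ a'.Nonempty ∧ Mg univ (a' ∩ Z)) : Mg univ Z := by
  have := mg_local (F := univ) (Z := Z) isClopen_univ fun q a _ c => by
    simpa only [univ_inter] using h q a (by simpa using c)
  simpa using this

/-- a meagre set is meagre in almost all fibres -/
lemma pres (hF : IsClosed F) (ht : IsClopen t) (hg : Measurable g) (hc : CP F t g)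
    (h : Mg F (t ∩ P)) : Mg univ {y | ¬ Mg (Fib F g y) (t ∩ P)} := by
  obtain ⟨V, hV, hP⟩ := h.exists_open
  have h1 : ∀ k q, IsClopen q → Mg univ {y | q ⊆ t ∧ y ∈ {y | y ∈ Ess F q g ∧
      ∀ q', IsClopen q' → q' ⊆ q ∩ V k → y ∉ Ess F q' g}} := by
    intro k q hq
    refine Mg.cond fun hqt => mg_univ_local fun a ha hne => ?_
    by_cases hm : Mg F (q ∩ g ⁻¹' a)
    · exact ⟨a, ha, Subset.rfl, hne, mg_empty fun y _ b => b.2.1 a ha b.1 hm⟩
    obtain ⟨q₁, a1, a2, a3, a4⟩ := bp hF (hg ha.isOpen.measurableSet) hq hm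
    obtain ⟨x, b1, b2, b3⟩ := exists_pt hF a1 a3 ((hV k).2.mono fun _ _ c => c.2)
    obtain ⟨q', c1, c2, c3⟩ := exists_clopen (a1.isOpen.inter (hV k).1) ⟨b2, b3⟩
    obtain ⟨a', d1, d2, d3, d4⟩ := (hc q' c1 (fun z hz => hqt (a2 (c3 hz).1)) ⟨x, b1, c2⟩).sub_ess
      ha (a4.mono fun z _ e => ⟨(c3 e.1).1, e.2⟩)
    exact ⟨a', d1, d2, d3, mg_empty fun y _ e =>
      e.2.2 q' c1 (fun z hz => ⟨a2 (c3 hz).1, (c3 hz).2⟩) (d4 e.1)⟩
  refine (Mg.ex fun k => Mg.cl (h1 k)).mono fun y _ hy => ?_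
  by_contra hn
  refine hy ((Mg.ex (P := fun k => t ∩ (V k)ᶜ) fun k => mg_local ht fun q a1 a2 a3 => ?_).mono
    fun x a b => ?_)
  · have : ∃ q', IsClopen q' ∧ q' ⊆ q ∩ V k ∧ y ∈ Ess F q' g := by
      by_contra hd
      push Not at hd
      exact hn ⟨k, q, a1, a2, (fib_meet hF a1).1 a3, hd⟩
    obtain ⟨q', b1, b2, b3⟩ := this
    exact ⟨q', b1, fun z hz => (b2 hz).1, (fib_meet hF b1).2 b3,
      mg_empty fun z _ c => c.2 (b2 c.1).2⟩
  · by_contra hd
    refine hP x a.1 (fun k => ?_) b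
    by_contra he
    exact hd ⟨k, b.1, he⟩

/-- the points where the value of `g` is decided locally -/
def Dcd (F : Set Cantor) (g : Cantor → Cantor) : Set Cantor :=
  {x | ∀ a, IsClopen a → g x ∈ a → ∃ q, IsClopen q ∧ x ∈ q ∧ Mg F (q \ g ⁻¹' a)}

lemma mg_dcd (hF : IsClosed F) (hg : Measurable g) : Mg F (Dcd F g)ᶜ := by
  have h1 : ∀ a, IsClopen a →
      Mg F (g ⁻¹' a \ ⋃₀ {q | IsClopen q ∧ Mg F (q \ g ⁻¹' a)}) := by
    intro a ha
    by_contra hc
    have ho : IsOpen (⋃₀ {q | IsClopen q ∧ Mg F (q \ g ⁻¹' a)}) :=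
      isOpen_sUnion fun q hq => hq.1.isOpen
    obtain ⟨q, a1, -, a3, a4⟩ := bp hF ((hg ha.isOpen.measurableSet).diff ho.measurableSet)
      isClopen_univ (by rwa [univ_inter])
    have a5 : Mg F (q \ g ⁻¹' a) := a4.mono fun x _ b => ⟨b.1, fun c => b.2 c.1⟩
    exact not_mg hF a1 a3 (a4.mono fun x _ b => ⟨b, fun c => c.2 ⟨q, ⟨a1, a5⟩, b⟩⟩)
  refine (Mg.cl h1).mono fun x _ hx => ?_
  by_contra hc
  refine hx fun a ha b => ?_
  by_contra hd
  exact hc ⟨a, ha, b, fun ⟨q, c1, c2⟩ => hd ⟨q, c1.1, c2, c1.2⟩⟩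

lemma eq_of_dcd {x : Cantor} (hx : x ∈ Fib F g y) (hd : x ∈ Dcd F g) : g x = y := by
  by_contra hc
  obtain ⟨a, a1, a2, a3⟩ := exists_clopen (isOpen_compl_singleton (x := y)) hc
  obtain ⟨q, b1, b2, b3⟩ := hd a a1 a2
  exact hx.2 q b1 b2 aᶜ a1.compl (fun c => a3 c rfl) b3

lemma exists_rect {s : Set Cantor} (hs : IsClopen s) (hne : s.Nonempty) :
    ∃ a b, IsClopen a ∧ IsClopen b ∧ a.Nonempty ∧ b.Nonempty ∧ ev ⁻¹' a ∩ od ⁻¹' b ⊆ s := by
  obtain ⟨c, hc⟩ := hne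
  obtain ⟨n, hn⟩ := exists_box (hs.isOpen.mem_nhds hc)
  refine ⟨_, _, isClopen_box (ev c) n, isClopen_box (od c) n, ⟨_, fun _ _ => rfl⟩,
    ⟨_, fun _ _ => rfl⟩, fun x hx => hn x fun i hi => ?_⟩
  rcases Nat.even_or_odd' i with ⟨k, rfl | rfl⟩
  · exact hx.1 k (by omega)
  · exact hx.2 k (by omega)

lemma rect_clopen {a b : Set Cantor} (ha : IsClopen a) (hb : IsClopen b) :
    IsClopen (ev ⁻¹' a ∩ od ⁻¹' b) :=
  (ha.preimage continuous_ev).inter (hb.preimage continuous_od)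

lemma rect_ne {a b : Set Cantor} (ha : a.Nonempty) (hb : b.Nonempty) :
    (ev ⁻¹' a ∩ od ⁻¹' b).Nonempty :=
  let ⟨u, hu⟩ := ha
  let ⟨v, hv⟩ := hb
  ⟨join u v, by rwa [mem_preimage, ev_join], by rwa [mem_preimage, od_join]⟩

lemma CP.ev (h : CP F t f) : CP F t (ev ∘ f) := by
  intro q a1 a2 a3
  obtain ⟨s₀, b1, b2, b3⟩ := h q a1 a2 a3
  obtain ⟨a, b, c1, c2, c3, c4, c5⟩ := exists_rect b1 b2
  exact ⟨a, c1, c3, fun s d1 d2 d3 d4 => b3 _ (rect_clopen d1 c2)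
    (fun x hx => c5 ⟨d2 hx.1, hx.2⟩) (rect_ne d3 c4) (d4.mono fun x _ e => ⟨e.1, e.2.1⟩)⟩

lemma mg_bad (hF : IsClosed F) (hf : Measurable f) (hc : CP F t f) (hq : IsClopen q)
    (hqt : q ⊆ t) : Mg univ {y | y ∈ Ess F q (ev ∘ f) ∧ ¬ ∃ b₀, IsClopen b₀ ∧ b₀.Nonempty ∧
      ∀ b, IsClopen b → b ⊆ b₀ → b.Nonempty → ∃ q', IsClopen q' ∧ q' ⊆ q ∧
        y ∈ Ess F q' (ev ∘ f) ∧ Mg F (q' \ (od ∘ f) ⁻¹' b)} := by
  have hg : Measurable (ev ∘ f) := continuous_ev.measurable.comp hf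
  refine mg_univ_local fun a ha hne => ?_
  by_cases hm : Mg F (q ∩ (ev ∘ f) ⁻¹' a)
  · exact ⟨a, ha, Subset.rfl, hne, mg_empty fun y _ b => b.2.1 a ha b.1 hm⟩
  obtain ⟨q₁, a1, a2, a3, a4⟩ := bp hF (hg ha.isOpen.measurableSet) hq hm
  obtain ⟨s₀, b1, b2, b3⟩ := hc q₁ a1 (a2.trans hqt) a3
  obtain ⟨a₀, b₀, c1, c2, c3, c4, c5⟩ := exists_rect b1 b2
  have hsub : a₀ ⊆ a := by
    intro u hu
    by_contra hn
    exact b3 _ (rect_clopen (c1.diff ha) c2) (fun x hx => c5 ⟨hx.1.1, hx.2⟩)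
      (rect_ne ⟨u, hu, hn⟩ c4) (a4.mono fun x _ e => ⟨e.1, e.2.1.2⟩)
  refine ⟨a₀, c1, hsub, c3, ?_⟩
  have h1 : ∀ b, IsClopen b → Mg univ {y | (b ⊆ b₀ ∧ b.Nonempty) ∧ y ∈ {y | y ∈ a₀ ∧
      ∀ q', IsClopen q' → q' ⊆ q → y ∈ Ess F q' (ev ∘ f) → ¬ Mg F (q' \ (od ∘ f) ⁻¹' b)}} := by
    intro b hb
    refine Mg.cond fun ⟨d1, d2⟩ => mg_univ_local fun a' e1 e2 => ?_
    by_cases hn : (a' ∩ a₀).Nonempty
    · have e3 := rect_clopen (e1.inter c1) hb
      obtain ⟨q', f1, f2, f3, f4⟩ := bp hF (hf e3.isOpen.measurableSet) a1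
        (b3 _ e3 (fun x hx => c5 ⟨hx.1.2, d1 hx.2⟩) (rect_ne hn d2))
      obtain ⟨a'', g1, g2, g3, g4⟩ := (hc.ev q' f1 (f2.trans (a2.trans hqt)) f3).sub_ess e1
        (f4.mono fun x _ e => ⟨e.1, fun k => e.2 k.1.1⟩)
      exact ⟨a'', g1, g2, g3, mg_empty fun y _ e => e.2.2 q' f1 (f2.trans a2) (g4 e.1)
        (f4.mono fun x _ e => ⟨e.1, fun k => e.2 k.2⟩)⟩
    · exact ⟨a', e1, Subset.rfl, e2, mg_empty fun y _ e => hn ⟨y, e.1, e.2.1⟩⟩
  refine (Mg.cl h1).mono fun y _ hy => ?_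
  by_contra hn
  refine hy.2.2 ⟨b₀, c2, c4, fun b d1 d2 d3 => ?_⟩
  by_contra hd
  push Not at hd
  exact hn ⟨b, d1, ⟨d2, d3⟩, hy.1, hd⟩

theorem quot (hF : IsClosed F) (ht : IsClopen t) (hne : (F ∩ t).Nonempty) (hf : Measurable f)
    (hc : CP F t f) (hH : Mg F (t \ H)) {B : Set Cantor}
    (hB : ∀ s, IsClopen s → s.Nonempty → ¬ Mg univ (s ∩ B)) :
    ∃ y ∈ B, (Fib F (ev ∘ f) y ∩ t).Nonempty ∧
      Mg (Fib F (ev ∘ f) y) (t \ (H ∩ {x | ev (f x) = y})) ∧
      CP (Fib F (ev ∘ f) y) t (od ∘ f) := by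
  have hg : Measurable (ev ∘ f) := continuous_ev.measurable.comp hf
  obtain ⟨s₀, a1, -, a2, a3⟩ := (hc.ev t ht Subset.rfl hne).sub_ess isClopen_univ
    (mg_empty fun _ _ b => b.2 trivial)
  have m1 := pres hF ht hg hc.ev (P := (H ∩ Dcd F (ev ∘ f))ᶜ)
    ((hH.union (mg_dcd hF hg)).mono fun x _ b => by
      by_cases c : x ∈ H
      · exact Or.inr fun d => b.2 ⟨c, d⟩
      · exact Or.inl ⟨b.1, c⟩)
  have m2 := Mg.cl fun q hq => Mg.cond fun hqt : q ⊆ t => mg_bad hF hf hc hq hqt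
  have m3 := Mg.cl fun q _ => Mg.cl fun b _ => Mg.cond fun hm : Mg F (q \ (od ∘ f) ⁻¹' b) =>
    pres hF ht hg hc.ev (P := q \ (od ∘ f) ⁻¹' b) (hm.mono fun _ _ c => c.2)
  obtain ⟨y, ⟨b1, b2⟩, b3⟩ := not_subset.1 fun hs =>
    hB s₀ a1 a2 (((m1.union m2).union m3).mono fun y _ hy => hs hy)
  have n1 : Mg (Fib F (ev ∘ f) y) (t ∩ (H ∩ Dcd F (ev ∘ f))ᶜ) := by
    by_contra hn
    exact b3 (Or.inl (Or.inl hn))
  refine ⟨y, b2, (fib_meet hF ht).2 (a3 b1),
    n1.mono fun x c d => ⟨d.1, fun e => d.2 ⟨e.1, eq_of_dcd (g := ev ∘ f) c e.2⟩⟩, fun q c1 c2 c3 => ?_⟩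
  by_contra hn
  refine b3 (Or.inl (Or.inr ⟨q, c1, c2, (fib_meet hF c1).1 c3, fun ⟨b₀, d1, d2, d3⟩ => ?_⟩))
  refine hn ⟨b₀, d1, d2, fun b e1 e2 e3 e4 => ?_⟩
  obtain ⟨q', f1, f2, f3, f4⟩ := d3 b e1 e2 e3
  have n3 : Mg (Fib F (ev ∘ f) y) (t ∩ (q' \ (od ∘ f) ⁻¹' b)) := by
    by_contra hk
    exact b3 (Or.inr ⟨q', f1, b, e1, f4, hk⟩)
  refine not_mg (fib_closed hF) f1 ((fib_meet hF f1).2 f3) ((e4.union n3).mono fun x _ k => ?_)
  by_cases hx : x ∈ (od ∘ f) ⁻¹' b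
  · exact Or.inl ⟨f2 k, hx⟩
  · exact Or.inr ⟨c2 (f2 k), k, hx⟩

end Pool.Agent.MP_057cde_lc.H75

end MrgPart0

-- ======== part 1: formerly Pool.Agent.MP_057cde_lc.h75.Mix
section MrgPart1

/-!
Mixing two reals: eight candidates, one of which is generic for both sides.
-/

namespace Pool.Agent.MP_057cde_lc.H75

open Set Filter Topology

/-- the colour of position `i` coded in `w` -/
def col (w : Cantor) (i : ℕ) : Bool × Bool := (w (3 * i), w (3 * i + 1))

/-- the content of position `i` coded in `w` -/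
def cnt (w : Cantor) (i : ℕ) : Bool := w (3 * i + 2)

/-- the run of `w` through `i` sees two colours of `v` -/
def Long (w v : Cantor) (i : ℕ) : Prop :=
  ∃ j, (∀ k, min i j ≤ k → k ≤ max i j → col w k = col w i) ∧ col v j ≠ col v i

/-- indices of the candidates -/
abbrev Idx : Type := Bool × Bool × Bool

/-- the positions where the candidate copies its first argument -/
def Fst (r : Idx) (w v : Cantor) (i : ℕ) : Prop :=
  (r.1 = true ∧ col v i ≠ r.2) ∨ (r.1 = false ∧ col w i = r.2 ∧ Long w v i)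

open Classical in
/-- the candidates -/
noncomputable def mix (r : Idx) (w v : Cantor) : Cantor := fun i =>
  if Fst r w v i then cnt w i else cnt v i

/-- for each colour some interval of that colour kills all bad candidates -/
def GenP (w : Cantor) (c : Idx → Cantor) (G : Idx → Prop) : Prop :=
  ∀ k : Bool × Bool, ∃ a b : ℕ, (∀ i, a ≤ i → i < b → col w i = k) ∧
    ∀ r, ¬ G r → ∃ i, a ≤ i ∧ i < b ∧ c r i ≠ cnt w i

lemma fst_of_ne {r : Idx} {w v : Cantor} {i : ℕ} (h : mix r w v i ≠ cnt v i) : Fst r w v i := by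
  by_contra hc
  exact h (if_neg hc)

lemma not_fst_of_ne {r : Idx} {w v : Cantor} {i : ℕ} (h : mix r w v i ≠ cnt w i) :
    ¬ Fst r w v i := fun hc => h (if_pos hc)

theorem common {w v : Cantor} {G G' : Idx → Prop} (h : GenP w (fun r => mix r w v) G)
    (h' : GenP v (fun r => mix r w v) G') : ∃ r, G r ∧ G' r := by
  by_contra hn
  push Not at hn
  have hB : ∀ c, G' (true, c) := by
    intro c
    by_contra hc
    obtain ⟨a, b, h1, h2⟩ := h' c
    obtain ⟨i, a1, a2, a3⟩ := h2 _ hc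
    rcases fst_of_ne a3 with d | d
    · exact d.2 (h1 i a1 a2)
    · simpa using d.1
  have hA : ∀ c, G (false, c) := by
    intro c
    by_contra hc
    obtain ⟨a, b, h1, h2⟩ := h c
    obtain ⟨i, a1, a2, a3⟩ := h2 _ hc
    obtain ⟨j, b1, b2, b3⟩ := h2 (true, !(col v i).1, (col v i).2) fun d => hn _ d (hB _)
    refine not_fst_of_ne a3 (Or.inr ⟨rfl, h1 i a1 a2, j, fun k c1 c2 => ?_, fun d => ?_⟩)
    · rw [h1 i a1 a2, h1 k (by omega) (by omega)]
    · refine not_fst_of_ne b3 (Or.inl ⟨rfl, fun e => ?_⟩)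
      rw [d] at e
      simpa using congrArg Prod.fst e
  obtain ⟨a, b, h1, h2⟩ := h' (true, true)
  have h3 : ∀ c, ∃ i, a ≤ i ∧ i < b ∧ col w i = c ∧ Long w v i := by
    intro c
    obtain ⟨i, a1, a2, a3⟩ := h2 (false, c) (hn _ (hA c))
    rcases fst_of_ne a3 with d | d
    · simpa using d.1
    · exact ⟨i, a1, a2, d.2⟩
  choose i i1 i2 i3 i4 using h3
  have ne : ∀ c c', c ≠ c' → i c ≠ i c' := fun c c' d e => d (by rw [← i3 c, e, i3 c'])
  have key : ∀ c c' c'', c ≠ c' → c'' ≠ c' → ¬ (i c < i c' ∧ i c' < i c'') := by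
    rintro c c' c'' d1 d2 ⟨d3, d4⟩
    obtain ⟨j, e1, e2⟩ := i4 c'
    have := i1 c
    have := i2 c''
    by_cases f1 : j < a
    · exact d1 (by rw [← i3 c, e1 (i c) (by omega) (by omega), i3])
    by_cases f2 : b ≤ j
    · exact d2 (by rw [← i3 c'', e1 (i c'') (by omega) (by omega), i3])
    exact e2 (by rw [h1 j (by omega) (by omega), h1 _ (i1 c') (i2 c')])
  have n1 := ne (false, false) (false, true) (by simp)
  have n2 := ne (false, false) (true, false) (by simp)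
  have n3 := ne (false, true) (true, false) (by simp)
  have k1 := key (false, false) (false, true) (true, false) (by simp) (by simp)
  have k2 := key (true, false) (false, true) (false, false) (by simp) (by simp)
  have k3 := key (false, true) (false, false) (true, false) (by simp) (by simp)
  have k4 := key (true, false) (false, false) (false, true) (by simp) (by simp)
  have k5 := key (false, false) (true, false) (false, true) (by simp) (by simp)
  have k6 := key (false, true) (true, false) (false, false) (by simp) (by simp)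
  omega

section meas

variable {α : Type} [MeasurableSpace α] {w v : α → Cantor}

lemma meas_col (hw : Measurable w) (i : ℕ) : Measurable fun x => col (w x) i :=
  ((measurable_pi_apply _).comp hw).prodMk ((measurable_pi_apply _).comp hw)

lemma meas_cnt (hw : Measurable w) (i : ℕ) : Measurable fun x => cnt (w x) i :=
  (measurable_pi_apply _).comp hw

lemma meas_eq {β : Type} [MeasurableSpace β] [MeasurableSingletonClass β] [Countable β]
    {a b : α → β} (ha : Measurable a) (hb : Measurable b) : Measurable fun x => a x = b x :=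
  measurableSet_setOfPred.1 (measurableSet_eq_fun ha hb)

lemma meas_mix (r : Idx) (hw : Measurable w) (hv : Measurable v) :
    Measurable fun x => mix r (w x) (v x) := by
  classical
  refine measurable_pi_lambda _ fun i => ?_
  refine Measurable.ite (measurableSet_setOfPred.2 ?_) (meas_cnt hw i) (meas_cnt hv i)
  refine (measurable_const.and (meas_eq (meas_col hv i) measurable_const).not).or
    (measurable_const.and ((meas_eq (meas_col hw i) measurable_const).and ?_))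
  exact Measurable.exists fun j => (Measurable.forall fun k => measurable_const.imp
    (measurable_const.imp (meas_eq (meas_col hw k) (meas_col hw i)))).and
    (meas_eq (meas_col hv j) (meas_col hv i)).not

lemma meas_genP (hw : Measurable w) {c : Idx → α → Cantor} (hc : ∀ r, Measurable (c r))
    {G : Idx → α → Prop} (hG : ∀ r, Measurable (G r)) :
    Measurable fun x => GenP (w x) (fun r => c r x) fun r => G r x :=
  Measurable.forall fun _ => Measurable.exists fun _ => Measurable.exists fun _ =>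
    (Measurable.forall fun i => measurable_const.imp (measurable_const.imp
      (meas_eq (meas_col hw i) measurable_const))).and
    (Measurable.forall fun r => (hG r).not.imp (Measurable.exists fun i =>
      measurable_const.and (measurable_const.and
        (meas_eq ((measurable_pi_apply i).comp (hc r)) (meas_cnt hw i)).not)))

end meas

/-- nowhere dense -/
def Thin (N : Set Cantor) : Prop := ∀ s, IsClopen s → s.Nonempty →
  ∃ s', IsClopen s' ∧ s' ⊆ s ∧ s'.Nonempty ∧ ∀ u ∈ N, u ∉ s'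

lemma kill {ι : Type} [Finite ι] {N : ι → Set Cantor} (hN : ∀ r, Thin (N r)) (a : ℕ) :
    ∃ (b : ℕ) (τ : Cantor), ∀ r, ∀ u ∈ N r, ∃ i, a ≤ i ∧ i < b ∧ u i ≠ τ i := by
  classical
  have := Fintype.ofFinite ι
  have h : ∀ S : Finset (ι × (Fin a → Bool)), ∃ (b : ℕ) (τ : Cantor), a ≤ b ∧ ∀ p ∈ S,
      ∀ u ∈ N p.1, (∀ i : Fin a, u i = p.2 i) → ∃ i, a ≤ i ∧ i < b ∧ u i ≠ τ i := by
    intro S
    induction S using Finset.induction_on with
    | empty => exact ⟨a, fun _ => true, le_rfl, by simp⟩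
    | insert p S _ ih =>
      obtain ⟨b, τ, h1, h2⟩ := ih
      let τ₀ : Cantor := fun i => if h : i < a then p.2 ⟨i, h⟩ else τ i
      obtain ⟨s, a1, a2, ⟨τ', a3⟩, a4⟩ := hN p.1 _ (isClopen_box τ₀ b) ⟨τ₀, fun _ _ => rfl⟩
      obtain ⟨n, hn⟩ := exists_box (a1.isOpen.mem_nhds a3)
      refine ⟨max b n, τ', by omega, fun p' hp' u hu hup => ?_⟩
      rcases Finset.mem_insert.1 hp' with rfl | hp'
      · by_contra hc
        push Not at hc
        refine a4 u hu (hn u fun i hi => ?_)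
        by_cases hia : i < a
        · rw [a2 a3 i (by omega), hup ⟨i, hia⟩]
          simp [τ₀, hia]
        · exact hc i (by omega) (by omega)
      · obtain ⟨i, b1, b2, b3⟩ := h2 p' hp' u hu hup
        refine ⟨i, b1, by omega, ?_⟩
        rw [a2 a3 i b2]
        simpa [τ₀, b1.not_gt] using b3
  obtain ⟨b, τ, -, h2⟩ := h Finset.univ
  exact ⟨b, τ, fun r u hu => h2 (r, fun i => u i) (Finset.mem_univ _) u hu fun _ => rfl⟩

lemma exists_killer {ι : Type} [Finite ι] {N : ι → Set Cantor} (hN : ∀ r, Thin (N r))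
    (k : Bool × Bool) {s₀ : Set Cantor} (hs : IsClopen s₀) (hne : s₀.Nonempty) :
    ∃ s, IsClopen s ∧ s ⊆ s₀ ∧ s.Nonempty ∧ ∃ a b : ℕ, ∀ v ∈ s,
      (∀ i, a ≤ i → i < b → col v i = k) ∧
      ∀ r, ∀ u ∈ N r, ∃ i, a ≤ i ∧ i < b ∧ u i ≠ cnt v i := by
  obtain ⟨v₀, h0⟩ := hne
  obtain ⟨a, ha⟩ := exists_box (hs.isOpen.mem_nhds h0)
  obtain ⟨b, τ, h⟩ := kill hN a
  let v₁ : Cantor := fun i => if i < 3 * a then v₀ i else if i % 3 = 0 then k.1 else
    if i % 3 = 1 then k.2 else τ (i / 3)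
  refine ⟨_, isClopen_box v₁ (3 * (a + b)), fun v hv => ha v fun i hi => ?_,
    ⟨v₁, fun _ _ => rfl⟩, a, b, fun v hv => ⟨fun i h1 h2 => ?_, fun r u hu => ?_⟩⟩
  · rw [hv i (by omega)]
    exact if_pos (by omega)
  · unfold col
    rw [hv _ (by omega), hv _ (by omega)]
    simp only [v₁]
    rw [if_neg (by omega), if_pos (by omega), if_neg (by omega), if_neg (by omega),
      if_pos (by omega)]
  · obtain ⟨i, a1, a2, a3⟩ := h r u hu
    refine ⟨i, a1, a2, ?_⟩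
    unfold cnt
    rw [hv _ (by omega)]
    simp only [v₁]
    rwa [if_neg (by omega), if_neg (by omega), if_neg (by omega),
      show (3 * i + 2) / 3 = i by omega]

variable {F t q : Set Cantor}

lemma Thick.mono {q' : Set Cantor} {f : Cantor → Cantor} (h : Thick F q f) (hq : q ⊆ q') :
    Thick F q' f :=
  let ⟨s₀, a1, a2, a3⟩ := h
  ⟨s₀, a1, a2, fun s b1 b2 b3 b4 => a3 s b1 b2 b3 (b4.mono fun _ _ c => ⟨hq c.1, c.2⟩)⟩

lemma exists_decided (f : Idx → Cantor → Cantor) (hq : IsClopen q) (hne : (F ∩ q).Nonempty) :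
    ∃ q', IsClopen q' ∧ q' ⊆ q ∧ (F ∩ q').Nonempty ∧
      ∀ r, CP F q' (f r) ∨ ¬ Thick F q' (f r) := by
  have h : ∀ S : Finset Idx, ∃ q', IsClopen q' ∧ q' ⊆ q ∧ (F ∩ q').Nonempty ∧
      ∀ r ∈ S, CP F q' (f r) ∨ ¬ Thick F q' (f r) := by
    intro S
    induction S using Finset.induction_on with
    | empty => exact ⟨q, hq, Subset.rfl, hne, by simp⟩
    | insert r S _ ih =>
      obtain ⟨q', a1, a2, a3, a4⟩ := ih
      by_cases hc : CP F q' (f r)
      · exact ⟨q', a1, a2, a3, Finset.forall_mem_insert _ _ _ |>.2 ⟨Or.inl hc, a4⟩⟩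
      · simp only [CP, not_forall] at hc
        obtain ⟨q'', b1, b2, b3, b4⟩ := hc
        exact ⟨q'', b1, b2.trans a2, b3, Finset.forall_mem_insert _ _ _ |>.2 ⟨Or.inr b4,
          fun r' hr' => (a4 r' hr').imp (fun c => c.mono b2) fun c d => c (d.mono b2)⟩⟩
  obtain ⟨q', a1, a2, a3, a4⟩ := h Finset.univ
  exact ⟨q', a1, a2, a3, fun r => a4 r (Finset.mem_univ r)⟩

lemma mg_ess (f : Cantor → Cantor) : Mg F (q \ f ⁻¹' Ess F q f) := by
  refine (Mg.cl (Z := fun s => {x | Mg F (q ∩ f ⁻¹' s) ∧ x ∈ q ∩ f ⁻¹' s})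
    fun s _ => Mg.cond fun h => h).mono fun x _ hx => ?_
  by_contra hc
  exact hx.2 fun s a1 a2 a3 => hc ⟨s, a1, a3, hx.1, a2⟩

theorem mg_gen (hF : IsClosed F) (ht : IsClopen t) {w : Cantor → Cantor} (hw : Measurable w)
    (hc : CP F t w) (f : Idx → Cantor → Cantor) :
    Mg F (t \ {x | GenP (w x) (fun r => f r x)
      fun r => ∃ t', IsClopen t' ∧ x ∈ t' ∧ CP F t' (f r)}) := by
  have h : ∀ k : Bool × Bool, Mg F (t ∩ {x | ¬ ∃ a b : ℕ,
      (∀ i, a ≤ i → i < b → col (w x) i = k) ∧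
      ∀ r, ¬ (∃ t', IsClopen t' ∧ x ∈ t' ∧ CP F t' (f r)) →
        ∃ i, a ≤ i ∧ i < b ∧ f r x i ≠ cnt (w x) i}) := by
    intro k
    refine mg_local ht fun q a1 a2 a3 => ?_
    obtain ⟨q₁, b1, b2, b3, b4⟩ := exists_decided f a1 a3
    obtain ⟨s₀, c1, c2, c3⟩ := hc q₁ b1 (b2.trans a2) b3
    have hN : ∀ r, Thin {u | ¬ Thick F q₁ (f r) ∧ u ∈ Ess F q₁ (f r)} := by
      intro r s d1 d2
      by_cases hT : Thick F q₁ (f r)
      · exact ⟨s, d1, Subset.rfl, d2, fun u e _ => e.1 hT⟩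
      · by_contra hn
        exact hT ⟨s, d1, d2, fun s' e1 e2 e3 e4 =>
          hn ⟨s', e1, e2, e3, fun u e5 e6 => e5.2 s' e1 e6 e4⟩⟩
    obtain ⟨s, d1, d2, d3, a, b, d4⟩ := exists_killer hN k c1 c2
    obtain ⟨q', e1, e2, e3, e4⟩ := bp hF (hw d1.isOpen.measurableSet) b1 (c3 s d1 d2 d3)
    refine ⟨q', e1, e2.trans b2, e3,
      (e4.union (Mg.ex fun r => mg_ess (q := q₁) (f r))).mono fun x _ hx => ?_⟩
    by_contra hn
    simp only [mem_union, Set.mem_sdiff, mem_ofPred_eq, not_or, not_and, not_not, not_exists] at hn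
    obtain ⟨g1, g2⟩ := d4 _ (hn.1 hx.1)
    refine hx.2 ⟨a, b, g1, fun r hr => g2 r _ ⟨?_, hn.2 r (e2 hx.1)⟩⟩
    exact (b4 r).resolve_left fun c => hr ⟨q₁, b1, e2 hx.1, c⟩
  refine (Mg.ex h).mono fun x _ hx => ?_
  obtain ⟨k, hk⟩ := not_forall.1 hx.2
  exact ⟨k, hx.1, hk⟩

end Pool.Agent.MP_057cde_lc.H75

end MrgPart1

-- ======== part 2: formerly Pool.Agent.MP_057cde_lc.h75.State
section MrgPart2

/-!
The Borel labelling of the edges of a countable family of Borel maps.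
-/

namespace Pool.Agent.MP_057cde_lc.H75

open Set Filter Topology

/-- a state: for each side and point a closed set and a real -/
abbrev St : Type := Bool → Cantor → Set Cantor × Cantor

variable (S : St) (ψ : Bool → Cantor → Cantor)

/-- the candidate seen from one side -/
noncomputable def cand : Bool → Idx → Cantor → Cantor
  | false, r, x => mix r (S false x).2 (S true (ψ false x)).2
  | true, r, x => mix r (S false (ψ true x)).2 (S true x).2

/-- the candidate is category preserving near `x` -/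
def Good (σ : Bool) (r : Idx) (x : Cantor) : Prop :=
  ∃ t, IsClopen t ∧ x ∈ t ∧ CP (S σ x).1 t (cand S ψ σ r)

/-- the edge at `x` exists and the candidate is good for both ends -/
def Act (σ : Bool) (x : Cantor) (r : Idx) : Prop :=
  ψ (!σ) (ψ σ x) = x ∧ Good S ψ σ r x ∧ Good S ψ (!σ) r (ψ σ x)

open Classical in
/-- a choice function on sets of candidates -/
noncomputable def pick (A : Idx → Prop) : Option Idx :=
  if h : ∃ r, A r then some h.choose else none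

/-- the next state, given the chosen candidate -/
noncomputable def nxt (σ : Bool) : Option Idx → Cantor → Set Cantor × Cantor
  | none, x => S σ x
  | some r, x => (Fib (S σ x).1 (ev ∘ cand S ψ σ r) (ev (cand S ψ σ r x)), od (cand S ψ σ r x))

/-- the next state -/
noncomputable def step : St := fun σ x => nxt S ψ σ (pick (Act S ψ σ x)) x

/-- genericity of `x` -/
def Gen (σ : Bool) (x : Cantor) : Prop :=
  GenP (S σ x).2 (fun r => cand S ψ σ r x) fun r => Good S ψ σ r x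

/-- `y` is the label of the edge at `x` -/
def Lab (σ : Bool) (x y : Cantor) : Prop :=
  ∃ r, pick (Act S ψ σ x) = some r ∧ ev (cand S ψ σ r x) = y

/-- a Borel state -/
def MS : Prop := ∀ σ, MF (fun x => (S σ x).1) ∧ Measurable fun x => (S σ x).2

variable {S ψ}

lemma pick_spec {A : Idx → Prop} {r : Idx} (h : pick A = some r) : A r := by
  unfold pick at h
  split_ifs at h with h'
  exact Option.some.inj h ▸ h'.choose_spec

lemma pick_some {A : Idx → Prop} (h : ∃ r, A r) : ∃ r, pick A = some r :=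
  ⟨_, dif_pos h⟩

theorem edge {x x' : Cantor} (h : ψ false x = x') (h' : ψ true x' = x) (g : Gen S ψ false x)
    (g' : Gen S ψ true x') : ∃ y, Lab S ψ false x y ∧ Lab S ψ true x' y := by
  have hA : Act S ψ true x' = Act S ψ false x := by
    funext r
    simp only [Act, Bool.not_true, Bool.not_false, h, h', true_and]
    exact propext and_comm
  simp only [Gen, cand, h, h'] at g g'
  obtain ⟨r, a, b⟩ := common g g'
  obtain ⟨r', hr⟩ := pick_some (A := Act S ψ false x) ⟨r, by simp [h, h'], a, by simpa [h] using b⟩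
  exact ⟨_, ⟨r', hr, rfl⟩, r', hA ▸ hr, by simp only [cand, h, h']⟩

section meas

lemma meas_mem {α : Type} [MeasurableSpace α] {y : α → Cantor} (hy : Measurable y)
    {s : Set Cantor} (hs : IsClopen s) : Measurable fun x => y x ∈ s :=
  measurableSet_setOfPred.1 (hy hs.isOpen.measurableSet)

lemma meas_eqc {α : Type} [MeasurableSpace α] {a b : α → Cantor} (ha : Measurable a)
    (hb : Measurable b) : Measurable fun x => a x = b x := by
  simp only [funext_iff]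
  exact Measurable.forall fun i =>
    meas_eq ((measurable_pi_apply i).comp ha) ((measurable_pi_apply i).comp hb)

lemma MF.cp {E : Cantor → Set Cantor} (hE : MF E) {f : Cantor → Cantor} (hf : Measurable f)
    (t : Set Cantor) : Measurable fun x => CP (E x) t f :=
  meas_all fun q hq => measurable_const.imp ((hE.2 q hq).imp (meas_ex fun _ _ =>
    measurable_const.and (meas_all fun _ hs => measurable_const.imp (measurable_const.imp
      (hE.mg (hf hs.isOpen.measurableSet) q hq).not))))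

lemma MF.fib {E : Cantor → Set Cantor} (hE : MF E) {g y : Cantor → Cantor} (hg : Measurable g)
    (hy : Measurable y) : MF fun x => Fib (E x) g (y x) := by
  refine ⟨fun x => fib_closed (hE.1 x), fun q hq => ?_⟩
  simp only [fun x => fib_meet (g := g) (y := y x) (hE.1 x) hq]
  exact meas_all fun s hs =>
    (meas_mem hy hs).imp (hE.mg (hg hs.isOpen.measurableSet) q hq).not

lemma meas_cases {β : Type} [MeasurableSpace β] {p : Cantor → Option Idx}
    (hp : ∀ o, Measurable fun x => p x = o) {g : Option Idx → Cantor → β}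
    (hg : ∀ o, Measurable (g o)) : Measurable fun x => g (p x) x := by
  intro s hs
  have : (fun x => g (p x) x) ⁻¹' s = ⋃ o, {x | p x = o} ∩ g o ⁻¹' s := by
    ext x; simp
  rw [this]
  exact MeasurableSet.iUnion fun o => (measurableSet_setOfPred.2 (hp o)).inter (hg o hs)

variable (hS : MS S) (hψ : ∀ σ, Measurable (ψ σ))
include hS hψ

lemma meas_cand (σ : Bool) (r : Idx) : Measurable (cand S ψ σ r) := by
  cases σ
  · exact meas_mix r (hS false).2 ((hS true).2.comp (hψ false))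
  · exact meas_mix r ((hS false).2.comp (hψ true)) (hS true).2

lemma meas_good (σ : Bool) (r : Idx) : Measurable (Good S ψ σ r) :=
  meas_ex fun t ht => (meas_mem measurable_id ht).and ((hS σ).1.cp (meas_cand hS hψ σ r) t)

lemma meas_pick (σ : Bool) (o : Option Idx) : Measurable fun x => pick (Act S ψ σ x) = o := by
  have h1 : Measurable fun x => Act S ψ σ x := measurable_pi_lambda _ fun r =>
    (meas_eqc ((hψ _).comp (hψ _)) measurable_id).and
      ((meas_good hS hψ σ r).and ((meas_good hS hψ (!σ) r).comp (hψ σ)))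
  exact (measurable_of_finite fun A : Idx → Prop => pick A = o).comp h1

lemma meas_gen (σ : Bool) : Measurable (Gen S ψ σ) :=
  meas_genP (hS σ).2 (meas_cand hS hψ σ) (meas_good hS hψ σ)

lemma meas_lab (σ : Bool) {α : Type} [MeasurableSpace α] {x y : α → Cantor} (hx : Measurable x)
    (hy : Measurable y) : Measurable fun a => Lab S ψ σ (x a) (y a) :=
  Measurable.exists fun r => ((meas_pick hS hψ σ (some r)).comp hx).and
    (meas_eqc (continuous_ev.measurable.comp ((meas_cand hS hψ σ r).comp hx)) hy)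

lemma MS.step : MS (step S ψ) := by
  intro σ
  have h1 : ∀ o, MF fun x => (nxt S ψ σ o x).1 := by
    rintro (_ | r)
    · exact (hS σ).1
    · exact (hS σ).1.fib (continuous_ev.measurable.comp (meas_cand hS hψ σ r))
        (continuous_ev.measurable.comp (meas_cand hS hψ σ r))
  refine ⟨⟨fun x => (h1 _).1 x, fun q hq => ?_⟩, ?_⟩
  · exact meas_cases (meas_pick hS hψ σ) (g := fun o x => ((nxt S ψ σ o x).1 ∩ q).Nonempty)
      fun o => (h1 o).2 q hq
  · refine meas_cases (meas_pick hS hψ σ) (g := fun o x => (nxt S ψ σ o x).2) ?_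
    rintro (_ | r)
    · exact (hS σ).2
    · exact continuous_od.measurable.comp (meas_cand hS hψ σ r)

theorem step_ex {F t H B : Set Cantor} {σ : Bool} (hF : IsClosed F) (ht : IsClopen t)
    (hne : (F ∩ t).Nonempty) (hH : Mg F (t \ H)) (hst : ∀ x ∈ H, (S σ x).1 = F)
    (hc : CP F t fun x => (S σ x).2) (hB : ∀ s, IsClopen s → s.Nonempty → ¬ Mg univ (s ∩ B)) :
    ∃ F' t', IsClosed F' ∧ F' ⊆ F ∧ IsClopen t' ∧ t' ⊆ t ∧ (F' ∩ t').Nonempty ∧
      Mg F' (t' \ (H ∩ {x | (step S ψ σ x).1 = F' ∧ Gen S ψ σ x ∧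
        ∀ y, Lab S ψ σ x y → y ∈ B})) ∧ CP F' t' fun x => (step S ψ σ x).2 := by
  have m1 : Mg F (t \ (H ∩ {x | Gen S ψ σ x})) := by
    refine (hH.union (mg_gen hF ht (hS σ).2 hc (cand S ψ σ))).mono fun x _ a => ?_
    by_cases hx : x ∈ H
    · refine Or.inr ⟨a.1, fun b => a.2 ⟨hx, ?_⟩⟩
      simp only [mem_ofPred_eq, Gen, Good, hst x hx]
      exact b
    · exact Or.inl ⟨a.1, hx⟩
  obtain ⟨o, ho⟩ : ∃ o, ¬ Mg F (t ∩ {x | pick (Act S ψ σ x) = o}) := by
    by_contra hn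
    push Not at hn
    exact not_mg hF ht hne ((Mg.ex hn).mono fun x _ a => ⟨_, a, rfl⟩)
  obtain ⟨t₁, a1, a2, a3, a4⟩ := bp hF (measurableSet_setOfPred.2 (meas_pick hS hψ σ o)) ht ho
  have m2 : Mg F (t₁ \ ((H ∩ {x | Gen S ψ σ x}) ∩ {x | pick (Act S ψ σ x) = o})) := by
    refine (m1.union a4).mono fun x _ a => ?_
    by_cases hx : x ∈ H ∩ {x | Gen S ψ σ x}
    · exact Or.inr ⟨a.1, fun b => a.2 ⟨hx, b⟩⟩
    · exact Or.inl ⟨a2 a.1, hx⟩
  rcases o with _ | r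
  · refine ⟨F, t₁, hF, Subset.rfl, a1, a2, a3, m2.mono fun x _ a => ⟨a.1, fun b => a.2 ?_⟩,
      (hc.mono a2).congr (m2.mono fun x _ a => ⟨a.1, fun b => a.2 ?_⟩)⟩
    · have e : pick (Act S ψ σ x) = none := b.2
      refine ⟨b.1.1, ?_, b.1.2, fun y ⟨r, c, _⟩ => ?_⟩
      · simp only [step, e, nxt]
        exact hst x b.1.1
      · simp [e] at c
    · have e : pick (Act S ψ σ x) = none := b.2
      simp only [mem_ofPred_eq, step, e, nxt]
  · obtain ⟨x₀, b1, b2, b3, b4⟩ := exists_pt hF a1 a3 m2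
    obtain ⟨t₂, c1, c2, c3⟩ := (pick_spec b4).2.1
    rw [hst x₀ b3.1] at c3
    obtain ⟨y, d1, d2, d3, d4⟩ := quot hF (a1.inter c1) ⟨x₀, b1, b2, c2⟩ (meas_cand hS hψ σ r)
      (c3.mono inter_subset_right) (m2.mono fun x _ a => ⟨a.1.1, a.2⟩) hB
    refine ⟨_, t₁ ∩ t₂, fib_closed hF, fun x a => a.1, a1.inter c1,
      inter_subset_left.trans a2, d2, d3.mono fun x _ a => ⟨a.1, fun b => a.2 ?_⟩,
      d4.congr (d3.mono fun x _ a => ⟨a.1, fun b => a.2 ?_⟩)⟩
    · have e : pick (Act S ψ σ x) = some r := b.1.2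
      have e' : ev (cand S ψ σ r x) = y := b.2
      refine ⟨b.1.1.1, ?_, b.1.1.2, fun y' ⟨r', c, d⟩ => ?_⟩
      · simp only [step, e, nxt, hst x b.1.1.1, e']
      · rw [e, Option.some.injEq] at c
        rw [← d, ← c, e']
        exact d1
    · have e : pick (Act S ψ σ x) = some r := b.1.2
      simp only [mem_ofPred_eq, step, e, nxt, Function.comp]

end meas

lemma fuse {P : ℕ → Set Cantor → Set Cantor → Prop} {G : ℕ → Set Cantor → Set Cantor}
    (h0 : ∀ n F t, P n F t → IsClosed F ∧ IsClopen t ∧ (F ∩ t).Nonempty ∧ Mg F (t \ G n F))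
    (hs : ∀ n F t, P n F t → ∀ t₁ H, IsClopen t₁ → t₁ ⊆ t → (F ∩ t₁).Nonempty → Mg F (t₁ \ H) →
      ∃ F' t', P (n + 1) F' t' ∧ F' ⊆ F ∧ t' ⊆ t₁ ∧ Mg F' (t' \ H))
    {F₀ t₀ : Set Cantor} (h : P 0 F₀ t₀) : ∃ x ∈ F₀, ∀ n, ∃ F, x ∈ G n F := by
  let T : ℕ → Type := fun n => {p : Set Cantor × Set Cantor × (ℕ → Set Cantor) //
    P n p.1 p.2.1 ∧ (∀ k, IsOpen (p.2.2 k) ∧ Mg p.1 (p.2.1 \ p.2.2 k)) ∧
      ∀ x ∈ p.1, x ∈ p.2.1 → (∀ k, x ∈ p.2.2 k) → x ∈ G n p.1}
  have hT : ∀ n (p : T n), ∃ p' : T (n + 1), p'.1.1 ⊆ p.1.1 ∧ p'.1.2.1 ⊆ p.1.2.1 ∧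
      (∀ k, p'.1.2.2 k ⊆ p.1.2.2 k) ∧ ∀ k ≤ n, p'.1.2.1 ⊆ p.1.2.2 k := by
    rintro n ⟨⟨F, t, U⟩, a1, a2, -⟩
    obtain ⟨b1, b2, b3, -⟩ := h0 _ _ _ a1
    have m : Mg F (t \ ⋂ k, U k) := (Mg.ex fun k => (a2 k).2).mono fun x _ c => by
      obtain ⟨k, hk⟩ := not_forall.1 fun d => c.2 (mem_iInter.2 d)
      exact ⟨k, c.1, hk⟩
    obtain ⟨x, c1, c2, c3⟩ := exists_pt b1 b2 b3 m
    obtain ⟨t₁, d1, d2, d3⟩ := exists_clopen (b2.isOpen.inter
      (isOpen_biInter_finset (s := Finset.range (n + 1)) fun k _ => (a2 k).1))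
      ⟨c2, mem_iInter₂.2 fun k _ => mem_iInter.1 c3 k⟩
    obtain ⟨F', t', e1, e2, e3, e4⟩ := hs n F t a1 t₁ (⋂ k, U k) d1 (fun y hy => (d3 hy).1)
      ⟨x, c1, d2⟩ (m.mono fun y _ f => ⟨(d3 f.1).1, f.2⟩)
    obtain ⟨V, f1, f2⟩ := (h0 _ _ _ e1).2.2.2.exists_open
    refine ⟨⟨⟨F', t', fun k => V k ∩ U k⟩, e1, fun k => ⟨(f1 k).1.inter (a2 k).1,
      ((f1 k).2.union e4).mono fun y _ g => ?_⟩, fun y g1 g2 g3 => ?_⟩, e2,
      fun y hy => (d3 (e3 hy)).1, fun k => inter_subset_right, fun k hk y hy =>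
      mem_iInter₂.1 (d3 (e3 hy)).2 k (Finset.mem_range.2 (by omega))⟩
    · by_cases hy : y ∈ V k
      · exact Or.inr ⟨g.1, fun j => g.2 ⟨hy, mem_iInter.1 j k⟩⟩
      · exact Or.inl hy
    · by_contra hn
      exact f2 y g1 (fun k => (g3 k).1) ⟨g2, hn⟩
  choose nx n1 n2 n3 n4 using hT
  obtain ⟨V, f1, f2⟩ := (h0 _ _ _ h).2.2.2.exists_open
  let p₀ : T 0 := ⟨⟨F₀, t₀, V⟩, h, fun k => ⟨(f1 k).1, (f1 k).2.mono fun _ _ a => a.2⟩,
    fun y g1 g2 g3 => by
      by_contra hn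
      exact f2 y g1 g3 ⟨g2, hn⟩⟩
  let p : ∀ n, T n := fun n => Nat.rec p₀ nx n
  have hcl : ∀ n, IsClosed ((p n).1.1 ∩ (p n).1.2.1) := fun n =>
    (h0 _ _ _ (p n).2.1).1.inter (h0 _ _ _ (p n).2.1).2.1.isClosed
  obtain ⟨x, hx⟩ := IsCompact.nonempty_iInter_of_sequence_nonempty_isCompact_isClosed
    (fun n => (p n).1.1 ∩ (p n).1.2.1) (fun n => inter_subset_inter (n1 n (p n)) (n2 n (p n)))
    (fun n => (h0 _ _ _ (p n).2.1).2.2.1) (hcl 0).isCompact hcl
  rw [mem_iInter] at hx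
  refine ⟨x, (hx 0).1, fun n => ⟨_, (p n).2.2.2 x (hx n).1 (hx n).2 fun k => ?_⟩⟩
  have ha : Antitone fun m => (p m).1.2.2 k := antitone_nat_of_succ_le fun m => n3 m (p m) k
  exact ha (le_max_left n k) (n4 _ (p (max n k)) k (le_max_right n k) (hx (max n k + 1)).2)

/-- the states of the construction -/
noncomputable def state (ψ : ℕ → Bool → Cantor → Cantor) : ℕ → St
  | 0 => fun _ x => ({x' | ev x' = ev x}, od x)
  | n + 1 => step (state ψ n) (ψ n)

lemma ms_state {ψ : ℕ → Bool → Cantor → Cantor} (hψ : ∀ n σ, Measurable (ψ n σ)) (n : ℕ) :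
    MS (state ψ n) := by
  induction n with
  | succ n ih => exact ih.step (hψ n)
  | zero =>
    refine fun σ => ⟨⟨fun x => isClosed_eq continuous_ev continuous_const, fun q hq => ?_⟩,
      continuous_od.measurable⟩
    have : IsOpen (⋃ u, (fun x => join (ev x) u) ⁻¹' q) :=
      isOpen_iUnion fun u => hq.isOpen.preimage (by fun_prop)
    refine measurableSet_setOfPred.1 ?_
    convert this.measurableSet using 1
    ext x
    refine ⟨fun ⟨x', a, b⟩ => mem_iUnion.2 ⟨od x', ?_⟩, fun a => ?_⟩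
    · have a' : ev x' = ev x := a
      rwa [mem_preimage, ← a', join_ev_od]
    · obtain ⟨u, hu⟩ := mem_iUnion.1 a
      exact ⟨_, ev_join _ _, hu⟩

theorem exists_king {ψ : ℕ → Bool → Cantor → Cantor} (hψ : ∀ n σ, Measurable (ψ n σ)) (σ : Bool)
    {B : Set Cantor} (hB : ∀ s, IsClopen s → s.Nonempty → ¬ Mg univ (s ∩ B)) (z : Cantor) :
    ∃ x, ev x = z ∧ ∀ n, Gen (state ψ n) (ψ n) σ x ∧
      ∀ y, Lab (state ψ n) (ψ n) σ x y → y ∈ B := by
  let G : ℕ → Set Cantor → Set Cantor := fun n F => {x | (state ψ n σ x).1 = F ∧ ∀ m < n,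
    Gen (state ψ m) (ψ m) σ x ∧ ∀ y, Lab (state ψ m) (ψ m) σ x y → y ∈ B}
  have hz : IsClosed {x | ev x = z} := isClosed_eq continuous_ev continuous_const
  refine (fuse (G := G) (P := fun n F t => (IsClosed F ∧ IsClopen t ∧
    (F ∩ t).Nonempty ∧ Mg F (t \ G n F)) ∧ CP F t fun x => (state ψ n σ x).2)
    (fun _ _ _ a => a.1) (F₀ := {x | ev x = z}) (t₀ := univ) ?_ ?_).imp
    fun x h => ⟨h.1, fun n => (h.2 (n + 1)).elim fun F hF => hF.2 n n.lt_succ_self⟩
  · rintro n F t ⟨⟨a1, -, -, a4⟩, a5⟩ t₁ H b1 b2 b3 b4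
    obtain ⟨F', t', c1, c2, c3, c4, c5, c6, c7⟩ := step_ex (ms_state hψ n) (hψ n) (σ := σ)
      (H := H ∩ G n F) a1 b1 b3 ((b4.union a4).mono fun x _ c => by
        by_cases hx : x ∈ H
        · exact Or.inr ⟨b2 c.1, fun d => c.2 ⟨hx, d⟩⟩
        · exact Or.inl ⟨c.1, hx⟩) (fun x c => c.2.1) (a5.mono b2) hB
    refine ⟨F', t', ⟨⟨c1, c3, c5, c6.mono fun x _ d => ⟨d.1, fun e => d.2 ⟨e.2.1, fun m hm => ?_⟩⟩⟩,
      c7⟩, c2, c4, c6.mono fun x _ d => ⟨d.1, fun e => d.2 e.1.1⟩⟩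
    rcases Nat.lt_succ_iff_lt_or_eq.1 hm with hm | rfl
    · exact e.1.2.2 m hm
    · exact e.2.2
  · refine ⟨⟨hz, isClopen_univ, ⟨join z z, ev_join _ _, trivial⟩, mg_empty fun x a b =>
      b.2 ⟨?_, fun m hm => absurd hm m.not_lt_zero⟩⟩, fun q a1 _ ⟨x, a2, a3⟩ => ?_⟩
    · have a' : ev x = z := a
      simp only [state, a']
    · have a' : ev x = z := a2
      refine ⟨join z ⁻¹' q, a1.preimage (by fun_prop), ⟨od x, ?_⟩, fun s b1 b2 ⟨u, hu⟩ =>
        not_mg hz (a1.inter (b1.preimage continuous_od)) ⟨join z u, ev_join _ _, b2 hu, ?_⟩⟩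
      · rwa [mem_preimage, ← a', join_ev_od]
      · show od (join z u) ∈ s
        rwa [od_join]

end Pool.Agent.MP_057cde_lc.H75

end MrgPart2

-- ======== part 3: formerly Pool.Agent.MP_057cde_lc.h75.Final
section MrgPart3

/-!
Turing determinacy excludes Bernstein sets.
-/

namespace Pool.Agent.MP_057cde_lc.H75

open Set Filter Topology

lemma exists_borel_enum : ∃ φ : ℕ → Cantor → Cantor, (∀ i, Measurable (φ i)) ∧
    ∀ a x, LeT a x → ∃ i, φ i x = a := by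
  classical
  obtain ⟨e, he⟩ := exists_surjective_nat Fn
  refine ⟨fun i x n => decide (Out (e i) x n true), fun i => measurable_pi_lambda _ fun n => ?_,
    fun a x h => ?_⟩
  · refine measurable_to_bool ?_
    convert (isOpen_out (e i) n (f := id) (g := fun _ => true) continuous_id
      continuous_const).measurableSet using 1
    ext x
    simp
  · obtain ⟨G, hG⟩ := h.exists_fn
    obtain ⟨i, rfl⟩ := he G
    refine ⟨i, funext fun n => ?_⟩
    have hb := hG n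
    cases hn : a n
    · rw [hn] at hb
      simpa using fun h => by simpa using hb.unique h
    · rw [hn] at hb
      simpa using hb

lemma perfect_of_mg {s B : Set Cantor} (hs : IsClopen s) (hne : s.Nonempty)
    (h : Mg univ (s ∩ B)) : ∃ Q : Set Cantor, Perfect Q ∧ Q.Nonempty ∧ Disjoint Q B := by
  obtain ⟨V, h1, h2⟩ := h.exists_open
  obtain ⟨Q, a1, a2, a3⟩ := perfect_of_borel (s := s ∩ ⋂ k, V k) (hs.isOpen.measurableSet.inter
    (MeasurableSet.iInter fun k => (h1 k).1.measurableSet)) fun hc => by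
    have := hc.to_subtype
    have m : ∀ d : Cantor, Mg univ {d} := fun d => mg_univ_local fun a b1 ⟨x, b2⟩ => by
      obtain ⟨y, ⟨c1, -⟩, c2⟩ : ∃ y ∈ a ∩ univ, y ≠ d := by
        by_cases hx : x = d
        · exact hx ▸ preperfect_iff_nhds.1 perfect_univ.acc x trivial a (b1.isOpen.mem_nhds b2)
        · exact ⟨x, ⟨b2, trivial⟩, hx⟩
      obtain ⟨q, e1, e2, e3⟩ := exists_clopen (b1.isOpen.inter isOpen_compl_singleton) ⟨c1, c2⟩
      exact ⟨q, e1, fun z hz => (e3 hz).1, ⟨y, e2⟩, mg_empty fun z _ f => (e3 f.1).2 f.2⟩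
    refine not_mg isClosed_univ hs (by simpa using hne) (((Mg.ex fun k => (h1 k).2).union
      (Mg.ex fun d : ↥(s ∩ ⋂ k, V k) => m d)).mono fun x _ hx => ?_)
    by_cases hV : ∀ k, x ∈ V k
    · exact Or.inr ⟨⟨x, hx, mem_iInter.2 hV⟩, rfl⟩
    · exact Or.inl (not_forall.1 hV)
  exact ⟨Q, a2, a3, disjoint_left.2 fun x b c =>
    h2 x trivial (mem_iInter.1 (a1 b).2) ⟨(a1 b).1, c⟩⟩

variable {Γ : Set (Set Cantor)} (hΓ : PointClass Γ)
include hΓ

lemma cone_of_kings (hTD : TD Γ) {ψ : ℕ → Bool → Cantor → Cantor}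
    (hψ : ∀ n σ, Measurable (ψ n σ)) (σ : Bool) {B : Set Cantor} (hBΓ : B ∈ Γ)
    (hB : ∀ s, IsClopen s → s.Nonempty → ¬ Mg univ (s ∩ B)) :
    ∃ c, ∀ x, LeT c x → ∃ x', (LeT x x' ∧ LeT x' x) ∧ (∀ n, Gen (state ψ n) (ψ n) σ x') ∧
      ∀ y, (∃ n, Lab (state ψ n) (ψ n) σ x' y) → y ∈ B := by
  have hI : Invariant {x | ∃ x', (LeT x x' ∧ LeT x' x) ∧ (∀ n, Gen (state ψ n) (ψ n) σ x') ∧
      ∀ y, (∃ n, Lab (state ψ n) (ψ n) σ x' y) → y ∈ B} := by
    rintro x ⟨x', ⟨a1, a2⟩, a3⟩ y b1 b2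
    exact ⟨x', ⟨b2.trans a1, a2.trans b1⟩, a3⟩
  have hd : ∀ i, Measurable fun z : Cantor => dec z i := fun i =>
    ((continuous_apply i).comp continuous_dec).measurable
  refine cone_of_cofinal hI (hTD _ ?_ hI) fun w => ?_
  · refine D.set hΓ (D.ex hΓ (D.and hΓ (D.and hΓ (D.leT hΓ (by fun_prop) (by fun_prop))
      (D.leT hΓ (by fun_prop) (by fun_prop))) (D.and hΓ ?_ (D.all hΓ (D.imp hΓ ?_
      (D.mem hΓ hBΓ (by fun_prop)))))))
    · exact hΓ.borel _ (measurableSet_setOfPred.2 (Measurable.forall fun n =>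
        (meas_gen (ms_state hψ n) (hψ n) σ).comp (hd 0)))
    · exact hΓ.borel _ (measurableSet_setOfPred.2 (Measurable.exists fun n =>
        meas_lab (ms_state hψ n) (hψ n) σ (hd 1) (hd 0)))
  · obtain ⟨x, a1, a2⟩ := exists_king hψ σ hB w
    refine ⟨x, ⟨x, ⟨LeT.refl x, LeT.refl x⟩, fun n => (a2 n).1, fun y ⟨n, b⟩ => (a2 n).2 y b⟩, ?_⟩
    have := left_le_join (ev x) (od x)
    rwa [join_ev_od, a1] at this

theorem exists_mg (hTD : TD Γ) {B : Set Cantor} (hB : B ∈ Γ) :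
    ∃ s, IsClopen s ∧ s.Nonempty ∧ (Mg univ (s ∩ B) ∨ Mg univ (s ∩ Bᶜ)) := by
  by_contra hn
  push Not at hn
  obtain ⟨φ, h1, h2⟩ := exists_borel_enum
  let ψ : ℕ → Bool → Cantor → Cantor := fun n σ => φ (cond σ n.unpair.2 n.unpair.1)
  have hψ : ∀ n σ, Measurable (ψ n σ) := fun n σ => h1 _
  obtain ⟨c, hc⟩ := cone_of_kings hΓ hTD hψ false hB fun s a b => (hn s a b).1
  obtain ⟨c', hc'⟩ := cone_of_kings hΓ hTD hψ true (hΓ.compl _ hB) fun s a b => (hn s a b).2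
  obtain ⟨x, ⟨a1, a2⟩, a3, a4⟩ := hc _ (left_le_join c c')
  obtain ⟨x', ⟨b1, b2⟩, b3, b4⟩ := hc' _ (right_le_join c c')
  obtain ⟨i, hi⟩ := h2 _ _ (b2.trans a1)
  obtain ⟨j, hj⟩ := h2 _ _ (a2.trans b1)
  obtain ⟨y, d1, d2⟩ := edge (ψ := ψ (Nat.pair i j)) (by simpa [ψ] using hi)
    (by simpa [ψ] using hj) (a3 _) (b3 _)
  exact b4 y ⟨_, d2⟩ (a4 y ⟨_, d1⟩)

theorem psp (hTD : TD Γ) {A : Set Cantor} (hA : A ∈ Γ) :
    A.Countable ∨ ∃ Q ⊆ A, Perfect Q ∧ Q.Nonempty := by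
  refine psp_of_no_bernstein hΓ hTD (fun B hB => ?_) hA
  obtain ⟨s, a1, a2, a3 | a3⟩ := exists_mg hΓ hTD hB
  · obtain ⟨Q, b1, b2, b3⟩ := perfect_of_mg a1 a2 a3
    exact ⟨Q, b1, b2, Or.inr b3⟩
  · obtain ⟨Q, b1, b2, b3⟩ := perfect_of_mg a1 a2 a3
    exact ⟨Q, b1, b2, Or.inl (disjoint_compl_right_iff_subset.1 b3)⟩

end Pool.Agent.MP_057cde_lc.H75

end MrgPart3

-- marker of a merged file
example : 731051 + 622482 = 731051 + 622482 := rfl
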