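import Mathlib.Topology.Baire.BaireMeasurable
import Mathlib.Topology.Baire.LocallyCompactRegular
import Mathlib.Topology.ClopenBox
import Pool.Agent.MP_057cde_lc.Unif

/-!
Meagre sets relative to a closed subset of Cantor space.
-/

namespace Pool.Agent.MP_057cde_lc.H75

open Set Filter Topology

/-- `P` is meagre in the subspace `F` -/
def Mg (F P : Set Cantor) : Prop := IsMeagre ((↑) ⁻¹' P : Set F)

variable {F P Q U t q : Set Cantor}

lemma Mg.mono (h : Mg F Q) (hs : ∀ x ∈ F, x ∈ P → x ∈ Q) : Mg F P :=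
  IsMeagre.mono (fun x hx => hs x.1 x.2 hx) h

lemma Mg.union (h : Mg F P) (h' : Mg F Q) : Mg F (P ∪ Q) := IsMeagre.union h h'

lemma Mg.iUnion {ι : Type} [Countable ι] {P : ι → Set Cantor} (h : ∀ i, Mg F (P i)) :
    Mg F (⋃ i, P i) := by
  unfold Mg
  rw [preimage_iUnion]
  exact isMeagre_iUnion h

lemma mg_empty (h : ∀ x ∈ F, x ∉ P) : Mg F P :=
  IsMeagre.mono (fun x hx => (h x.1 x.2 hx).elim) IsMeagre.empty

lemma Mg.ex {ι : Type} [Countable ι] {P : ι → Set Cantor} (h : ∀ i, Mg F (P i)) :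
    Mg F {x | ∃ i, x ∈ P i} := (Mg.iUnion h).mono fun _ _ hx => mem_iUnion.2 hx

lemma Mg.cond {p : Prop} (h : p → Mg F P) : Mg F {x | p ∧ x ∈ P} := by
  by_cases hp : p
  · exact (h hp).mono fun _ _ hx => hx.2
  · exact mg_empty fun _ _ hx => hp hx.1

instance : Countable (TopologicalSpace.Clopens Cantor) :=
  TopologicalSpace.Clopens.countable_iff_secondCountable.2 inferInstance

lemma Mg.cl {Z : Set Cantor → Set Cantor} (h : ∀ q, IsClopen q → Mg F (Z q)) :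
    Mg F {x | ∃ q, IsClopen q ∧ x ∈ Z q} :=
  (Mg.ex (ι := TopologicalSpace.Clopens Cantor) fun q => h q q.isClopen).mono
    fun _ _ ⟨q, h1, h2⟩ => ⟨⟨q, h1⟩, h2⟩

lemma baire (hF : IsClosed F) (hU : IsOpen U) (h : Mg F U) : ∀ x ∈ F, x ∉ U := by
  intro x hx hxU
  have : CompactSpace F := isCompact_iff_compactSpace.1 hF.isCompact
  have hd : Dense ((↑) ⁻¹' U : Set F)ᶜ := dense_of_mem_residual h
  obtain ⟨y, h1, h2⟩ := hd.inter_open_nonempty _ (hU.preimage continuous_subtype_val)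
    ⟨⟨x, hx⟩, hxU⟩
  exact h2 h1

lemma not_mg (hF : IsClosed F) (hq : IsClopen q) (hne : (F ∩ q).Nonempty) : ¬ Mg F q :=
  fun h => let ⟨x, h1, h2⟩ := hne; baire hF hq.isOpen h x h1 h2

lemma exists_pt (hF : IsClosed F) (hq : IsClopen q) (hne : (F ∩ q).Nonempty)
    (h : Mg F (q \ P)) : ∃ x ∈ F, x ∈ q ∧ x ∈ P := by
  by_contra hc
  push Not at hc
  exact not_mg hF hq hne (h.mono fun x h1 h2 => ⟨h2, hc x h1 h2⟩)

lemma isClopen_box (x : Cantor) (n : ℕ) : IsClopen {y : Cantor | ∀ i < n, y i = x i} :=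
  ⟨isClosed_box x n, isOpen_box x n⟩

lemma exists_clopen (hU : IsOpen U) {x : Cantor} (hx : x ∈ U) :
    ∃ q, IsClopen q ∧ x ∈ q ∧ q ⊆ U := by
  obtain ⟨n, hn⟩ := exists_box (hU.mem_nhds hx)
  exact ⟨_, isClopen_box x n, fun _ _ => rfl, hn⟩

lemma bp (hF : IsClosed F) (hP : MeasurableSet P) (ht : IsClopen t) (h : ¬ Mg F (t ∩ P)) :
    ∃ q, IsClopen q ∧ q ⊆ t ∧ (F ∩ q).Nonempty ∧ Mg F (q \ P) := by
  have hm : MeasurableSet ((↑) ⁻¹' (t ∩ P) : Set F) :=
    (ht.isOpen.measurableSet.inter hP).preimage measurable_subtype_coe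
  obtain ⟨O, hO, he⟩ := hm.residualEq_isOpen
  obtain ⟨V, hV, rfl⟩ := isOpen_induced_iff.1 hO
  have h1 : Mg F (V \ (t ∩ P)) := by
    unfold Mg IsMeagre
    filter_upwards [he] with x hx hx'
    exact hx'.2 (hx.mpr hx'.1)
  have h2 : Mg F ((t ∩ P) \ V) := by
    unfold Mg IsMeagre
    filter_upwards [he] with x hx hx'
    exact hx'.2 (hx.mp hx'.1)
  obtain ⟨x, hx, hxV⟩ : ∃ x ∈ F, x ∈ V := by
    by_contra hc
    push Not at hc
    exact h (h2.mono fun x a b => ⟨b, hc x a⟩)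
  have hxt : x ∈ t := by
    by_contra hc
    exact baire hF (hV.sdiff ht.isClosed) (h1.mono fun y _ b => ⟨b.1, fun c => b.2 c.1⟩) x hx
      ⟨hxV, hc⟩
  obtain ⟨q, a1, a2, a3⟩ := exists_clopen (hV.inter ht.isOpen) ⟨hxV, hxt⟩
  exact ⟨q, a1, fun y hy => (a3 hy).2, ⟨x, hx, a2⟩,
    h1.mono fun y _ b => ⟨(a3 b.1).1, fun c => b.2 c.2⟩⟩

lemma mg_of_dense (hU : IsOpen U)
    (h : ∀ q, IsClopen q → (F ∩ q).Nonempty → ∃ x ∈ F, x ∈ q ∧ x ∈ U) : Mg F Uᶜ := by
  unfold Mg IsMeagre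
  rw [preimage_compl, compl_compl]
  refine residual_of_dense_open (hU.preimage continuous_subtype_val) ?_
  rw [dense_iff_inter_open]
  rintro O hO ⟨x, hx⟩
  obtain ⟨V, hV, rfl⟩ := isOpen_induced_iff.1 hO
  obtain ⟨q, a1, a2, a3⟩ := exists_clopen hV hx
  obtain ⟨y, b1, b2, b3⟩ := h q a1 ⟨x, x.2, a2⟩
  exact ⟨⟨y, b1⟩, a3 b2, b3⟩

lemma mg_local {Z : Set Cantor} (ht : IsClopen t)
    (h : ∀ q, IsClopen q → q ⊆ t → (F ∩ q).Nonempty →
      ∃ q', IsClopen q' ∧ q' ⊆ q ∧ (F ∩ q').Nonempty ∧ Mg F (q' ∩ Z)) : Mg F (t ∩ Z) := by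
  have h1 : Mg F (tᶜ ∪ ⋃₀ {q | IsClopen q ∧ Mg F (q ∩ Z)})ᶜ := by
    refine mg_of_dense (ht.compl.isOpen.union (isOpen_sUnion fun q hq => hq.1.isOpen))
      fun q hq ⟨x, a1, a2⟩ => ?_
    by_cases hx : x ∈ t
    · obtain ⟨q', b1, b2, ⟨y, b3, b4⟩, b5⟩ := h (q ∩ t) (hq.inter ht) inter_subset_right
        ⟨x, a1, a2, hx⟩
      exact ⟨y, b3, (b2 b4).1, Or.inr ⟨q', ⟨b1, b5⟩, b4⟩⟩
    · exact ⟨x, a1, a2, Or.inl hx⟩
  have h2 := Mg.cl (F := F) (Z := fun q => {x | Mg F (q ∩ Z) ∧ x ∈ q ∩ Z})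
    fun q _ => Mg.cond fun h => h
  refine (h1.union h2).mono fun x _ hx => ?_
  by_cases hc : x ∈ ⋃₀ {q | IsClopen q ∧ Mg F (q ∩ Z)}
  · obtain ⟨q, a1, a2⟩ := hc
    exact Or.inr ⟨q, a1.1, a1.2, a2, hx.2⟩
  · exact Or.inl fun c => c.elim (fun d => d hx.1) hc

lemma Mg.exists_open (h : Mg F P) : ∃ V : ℕ → Set Cantor,
    (∀ k, IsOpen (V k) ∧ Mg F (V k)ᶜ) ∧ ∀ x ∈ F, (∀ k, x ∈ V k) → x ∉ P := by
  obtain ⟨S, h1, h2, h3, h4⟩ := mem_residual_iff.1 h
  obtain ⟨e, he⟩ := (h3.insert univ).exists_eq_range (insert_nonempty _ _)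
  have h5 : ∀ k, IsOpen (e k) ∧ Dense (e k) := fun k => by
    have : e k ∈ insert univ S := he ▸ mem_range_self k
    rcases this with c | c
    · rw [c]; exact ⟨isOpen_univ, dense_univ⟩
    · exact ⟨h1 _ c, h2 _ c⟩
  choose V hV hVe using fun k => isOpen_induced_iff.1 (h5 k).1
  refine ⟨V, fun k => ⟨hV k, ?_⟩, fun x hx hk => ?_⟩
  · unfold Mg IsMeagre
    rw [preimage_compl, compl_compl, hVe]
    exact residual_of_dense_open (h5 k).1 (h5 k).2
  · refine h4 (a := ⟨x, hx⟩) fun s hs => ?_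
    obtain ⟨k, rfl⟩ : s ∈ range e := he ▸ mem_insert_of_mem _ hs
    rw [← hVe]
    exact hk k

/-! Measurability of the category quantifier. -/

section meas

variable {α : Type} [MeasurableSpace α]

lemma meas_all {p : Set Cantor → α → Prop} (h : ∀ q, IsClopen q → Measurable (p q)) :
    Measurable fun x => ∀ q, IsClopen q → p q x := by
  have := Measurable.forall (ι := TopologicalSpace.Clopens Cantor) fun q => h q q.isClopen
  convert this using 2 with x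
  exact ⟨fun a q => a q q.isClopen, fun a q b => a ⟨q, b⟩⟩

lemma meas_ex {p : Set Cantor → α → Prop} (h : ∀ q, IsClopen q → Measurable (p q)) :
    Measurable fun x => ∃ q, IsClopen q ∧ p q x := by
  have := Measurable.exists (ι := TopologicalSpace.Clopens Cantor) fun q => h q q.isClopen
  convert this using 2 with x
  exact ⟨fun ⟨q, a, b⟩ => ⟨⟨q, a⟩, b⟩, fun ⟨q, b⟩ => ⟨q, q.isClopen, b⟩⟩

/-- a measurable family of closed sets -/
def MF (E : α → Set Cantor) : Prop :=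
  (∀ x, IsClosed (E x)) ∧ ∀ q, IsClopen q → Measurable fun x => (E x ∩ q).Nonempty

lemma MF.mg {E : α → Set Cantor} (hE : MF E) (hP : MeasurableSet P) :
    ∀ q, IsClopen q → Measurable fun x => Mg (E x) (q ∩ P) := by
  induction P, hP using MeasurableSet.induction_on_open with
  | isOpen U hU =>
    intro q hq
    have := meas_all (p := fun q' x => q' ⊆ q ∩ U → ¬ (E x ∩ q').Nonempty)
      fun q' hq' => measurable_const.imp (hE.2 q' hq').not
    convert this using 2 with x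
    refine ⟨fun a q' _ c ⟨y, d, e⟩ => baire (hE.1 x) (hq.isOpen.inter hU) a y d (c e),
      fun a => mg_empty fun y b c => ?_⟩
    obtain ⟨q', a1, a2, a3⟩ := exists_clopen (hq.isOpen.inter hU) c
    exact a q' a1 a3 ⟨y, b, a2⟩
  | compl P hP ih =>
    intro q hq
    have := meas_all (p := fun q' x => q' ⊆ q → (E x ∩ q').Nonempty → ¬ Mg (E x) (q' ∩ P))
      fun q' hq' => measurable_const.imp ((hE.2 q' hq').imp (ih q' hq').not)
    convert this using 2 with x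
    refine ⟨fun a q' b c d e => not_mg (hE.1 x) b d ((a.union e).mono fun y _ f => ?_),
      fun a => ?_⟩
    · by_cases hy : y ∈ P
      · exact Or.inr ⟨f, hy⟩
      · exact Or.inl ⟨c f, hy⟩
    · by_contra hc
      obtain ⟨q', a1, a2, a3, a4⟩ := bp (hE.1 x) hP.compl hq hc
      exact a q' a1 a2 a3 (a4.mono fun y _ b => ⟨b.1, fun c => c b.2⟩)
  | iUnion P _ _ ih =>
    intro q hq
    have := Measurable.forall fun k => ih k q hq
    convert this using 2 with x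
    refine ⟨fun a k => a.mono fun y _ b => ⟨b.1, mem_iUnion.2 ⟨k, b.2⟩⟩, fun a => ?_⟩
    rw [inter_iUnion]
    exact Mg.iUnion a

end meas

end Pool.Agent.MP_057cde_lc.H75
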